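import Pool.Agent.Q208.ME.Stmts
import Pool.Agent.Q208.ME.Assembly
import Pool.Agent.Q208.ME.TwoPoint
import Pool.Agent.Q208.ME.Cancel
import Pool.Agent.Q208.ME.TaskGibbs
import Pool.Agent.Q208.ME.TaskPos
import Pool.Agent.Q208.ME.TaskFirst
import Pool.Agent.Q208.ME.TaskLimit
import Pool.Agent.Q208.ME.Max2

/-!
# MP_53e9f9_co: characterisation of the M-expansive pairs

Let `φ, ψ : S → S → S` be binary operations on a finite set. `MExpansive φ ψ` (file
`Pool/Agent/Q208/ME/TwoPoint.lean`) is the definition of the problem: for every quadruple of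
nonnegative functions with `α a * β b ≤ γ (φ a b) * δ (ψ a b)` and all finite sets `A`, `B`,
`α(A) β(B) ≤ γ(φ(A, B)) δ(ψ(A, B))`.

`result`:
1. `(φ, ψ)` is M-expansive iff any two probability distributions `P`, `Q` on `S` have a coupling
   `π` with `H(P) + H(Q) ≤ H(φ_* π) + H(ψ_* π)` (Shannon entropies);
2. the same with a constant: `α(A) β(B) ≤ K γ(φ(A, B)) δ(ψ(A, B))` holds for all compatible
   quadruples iff there are always couplings with `H(P) + H(Q) ≤ H(φ_* π) + H(ψ_* π) + log K`;
3. the pairs on `{0, 1}`: M-expansive iff `(a, b) ↦ (φ(a, b), ψ(a, b))` is injective, or the pair is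
   `(or, and)` up to exchanging `0` and `1` in the inputs and the outputs, or it is `(xor, xor)` up
   to exchanging `0` and `1` in the outputs;
4. pairs with cancellation are M-expansive.
-/

set_option autoImplicit false

open Finset

namespace Pool.Agent.Results.MP_53e9f9_co.EntropyCoupling

open Pool.Agent.Q208.ME

theorem with_constant (S : Type) [Fintype S] [DecidableEq S] (φ ψ : S → S → S) (K : ℝ)
    (hK : 0 < K) : ExpansiveWith K φ ψ ↔ ∀ P Q : S → ℝ, IsDist P → IsDist Q →
      ∃ π, IsCoupling P Q π ∧ H P + H Q ≤ H (push φ π) + H (push ψ π) + Real.log K :=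
  ⟨fun h P Q hP hQ => forward TaskGibbs.main Max2.main TaskPos.main TaskFirst.main TaskLimit.main
    S φ ψ K hK h P Q hP hQ, fun h => backward TaskGibbs.main S φ ψ K hK h⟩

theorem result :
    (∀ (S : Type) [Fintype S] [DecidableEq S] (φ ψ : S → S → S),
      MExpansive φ ψ ↔ ∀ P Q : S → ℝ, IsDist P → IsDist Q →
        ∃ π, IsCoupling P Q π ∧ H P + H Q ≤ H (push φ π) + H (push ψ π)) ∧
    (∀ (S : Type) [Fintype S] [DecidableEq S] (φ ψ : S → S → S) (K : ℝ), 0 < K →
      (ExpansiveWith K φ ψ ↔ ∀ P Q : S → ℝ, IsDist P → IsDist Q →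
        ∃ π, IsCoupling P Q π ∧ H P + H Q ≤ H (push φ π) + H (push ψ π) + Real.log K)) ∧
    (∀ φ ψ : Bool → Bool → Bool, MExpansive φ ψ ↔
      Function.Injective (fun p : Bool × Bool => (φ p.1 p.2, ψ p.1 p.2)) ∨
      (∃ r k s t : Bool, ∀ a b, φ a b = xor s ((xor r a) || (xor k b)) ∧
        ψ a b = xor t ((xor r a) && (xor k b))) ∨
      (∃ s t : Bool, ∀ a b, φ a b = xor s (xor a b) ∧ ψ a b = xor t (xor a b))) ∧
    (∀ (S : Type) [Fintype S] [DecidableEq S] (φ ψ : S → S → S),
      ((∀ b, Function.Injective (fun a => φ a b)) ∧ (∀ a, Function.Injective (fun b => ψ a b)) ∨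
        (∀ a, Function.Injective (fun b => φ a b)) ∧ (∀ b, Function.Injective (fun a => ψ a b))) →
      MExpansive φ ψ) := by
  refine ⟨?_, ?_, ?_, ?_⟩
  · intro S _ _ φ ψ
    have h := with_constant S φ ψ 1 one_pos
    have e1 : MExpansive φ ψ ↔ ExpansiveWith 1 φ ψ := by
      unfold MExpansive ExpansiveWith
      simp only [one_mul]
    rw [e1, h]
    simp only [Real.log_one, add_zero]
  · intro S _ _ φ ψ K hK
    exact with_constant S φ ψ K hK
  · exact two_point
  · intro S _ _ φ ψ h
    rcases h with h | h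
    · exact expansive_of_cancel φ ψ h.1 h.2
    · exact expansive_of_cancel' φ ψ h.1 h.2

end Pool.Agent.Results.MP_53e9f9_co.EntropyCoupling
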